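import Pool.Agent.Lib.helper4.CXTok

set_option autoImplicit false
set_option linter.unusedSectionVars false

namespace Pool.Agent.H.MP_901ac1_lc

open Pool.Agent.Lib.CX Function

variable {K : Type} [DecidableEq K] [Inhabited K]

abbrev Y (K : Type) := ℕ × Act K

set_option synthInstance.maxSize 1000 in
instance : DecidableEq (Act K) := fun _ _ => instDecidableEqProd _ _
instance : DecidableEq (Y K) := fun _ _ => instDecidableEqProd _ _

abbrev q0 : Q8 := ((false, false), false)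
abbrev vR (k : K) (q : Q8) : Y K := (0, k, q, [], [])
abbrev vC (n : ℕ) : Y K := (n, default, q0, [], [])

def chk (T : List K) (A : List (Act K)) : List (Act K) := A ++ T.map fun k => (k, q0, [], [])
def wit (A : List (Act K)) (a : Act K) : List (Y K) :=
  q8.map (vR a.1) ++ (a.2.2.1.map (fun w => vR w.1 w.2) ++ (A.filter (· ≠ a)).map (2, ·))
def out (a : Act K) : List (Y K) := vC 3 :: vC 7 :: (2, a) :: a.2.2.2.map (vR a.1)
def fx : List (ℕ × ℕ × ℕ) := [(0, 11, 12), (0, 12, 11), (0, 6, 7), (0, 3, 7), (1, 5, 7), (1, 5, 9),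
  (1, 10, 7), (1, 10, 8), (1, 10, 9), (1, 9, 7), (1, 9, 8), (1, 8, 7)]
def edges (T : List K) (A : List (Act K)) : List (ℕ × Y K × Y K) :=
  fx.map (fun e => (e.1, vC e.2.1, vC e.2.2)) ++
  (A.flatMap (fun a => (0, vR a.1 a.2.1, (1, a)) :: (out a).map fun w => (0, (1, a), w)) ++
    (chk T A).flatMap fun a => (1, vC 5, (4, a)) :: (1, (4, a), vC 7) :: (1, (4, a), vC 10) :: (0, (4, a), vC 7) ::
      (0, (4, a), vC 11) :: (wit A a).map fun w => (0, w, (4, a)))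

def mv (p : Y K → Option ℕ) (u v : Y K) (i : ℕ) : Y K → Option ℕ := update (update p u none) v (some i)

variable {T : List K} {A : List (Act K)} {p q : Y K → Option ℕ} {u v : Y K} {i : ℕ}

theorem mv_apply (p : Y K → Option ℕ) (u v w : Y K) (i : ℕ) : mv p u v i w =
    if w = v then some i else if w = u then none else p w := by
  simp only [mv, update_apply]

theorem move_iff : MoveF true (edges T A) p q ↔ ∃ i u v, (i, u, v) ∈ edges T A ∧ p u = some i ∧ q = mv p u v i := by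
  simp [MoveF, mv, -Prod.forall]

theorem ed_iff : (i, u, v) ∈ edges T A ↔ (∃ x y, (i, x, y) ∈ fx ∧ u = vC x ∧ v = vC y) ∨
    (∃ a ∈ A, i = 0 ∧ (u = vR a.1 a.2.1 ∧ v = (1, a) ∨ u = (1, a) ∧ v ∈ out a)) ∨
    ∃ a ∈ chk T A, i = 1 ∧ u = vC 5 ∧ v = (4, a) ∨ u = (4, a) ∧ (i = 1 ∧ (v = vC 7 ∨ v = vC 10) ∨
      i = 0 ∧ (v = vC 7 ∨ v = vC 11)) ∨ i = 0 ∧ u ∈ wit A a ∧ v = (4, a) := by
  simp only [edges, List.mem_append, List.mem_flatMap, List.mem_cons, List.mem_map]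
  grind

theorem fx_ed {x y : ℕ} (h : (i, x, y) ∈ fx) : (i, vC x, vC y) ∈ edges T A := ed_iff.2 (.inl ⟨x, y, h, rfl, rfl⟩)

theorem out_ed {a : Act K} (ha : a ∈ A) (h : v ∈ out a) : (0, (1, a), v) ∈ edges T A :=
  ed_iff.2 (.inr (.inl ⟨a, ha, rfl, .inr ⟨rfl, h⟩⟩))

theorem mem_wit {a : Act K} {w : Y K} : w ∈ wit A a ↔ (∃ q, w = vR a.1 q) ∨
    (∃ x ∈ a.2.2.1, w = vR x.1 x.2) ∨ ∃ b ∈ A, b ≠ a ∧ w = (2, b) := by
  simp [wit, mem_q8, eq_comm (b := w), and_assoc, -Prod.exists, -Prod.forall]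

theorem mem_out {a : Act K} {w : Y K} : w ∈ out a ↔
    w = vC 3 ∨ w = vC 7 ∨ w = (2, a) ∨ ∃ t ∈ a.2.2.2, w = vR a.1 t := by
  simp [out, eq_comm, -Prod.exists]

theorem wit_k {a : Act K} {w : Y K} (h : w ∈ wit A a) : w.1 = 0 ∨ w.1 = 2 := by
  rcases mem_wit.1 h with ⟨_, rfl⟩ | ⟨_, -, rfl⟩ | ⟨_, -, -, rfl⟩ <;> simp [*]

theorem win_mv (h : (i, u, v) ∈ edges T A) (h1 : p u = some i) (h2 : Lose (MoveF true (edges T A)) (mv p u v i)) :
    Win (MoveF true (edges T A)) p := .mk _ (move_iff.2 ⟨i, u, v, h, h1, rfl⟩) h2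

theorem mem_fx {x y : ℕ} (h : (i, x, y) ∈ fx) :
    i = 0 ∧ (x = 11 ∧ y = 12 ∨ x = 12 ∧ y = 11 ∨ x = 6 ∧ y = 7 ∨ x = 3 ∧ y = 7) ∨
      i = 1 ∧ (x = 5 ∧ (y = 7 ∨ y = 9) ∨ 7 ≤ y ∧ y < x ∧ x ≤ 10) := by
  simp only [fx, List.mem_cons, Prod.mk.injEq, List.not_mem_nil, or_false] at h
  omega

theorem ind (Φ : (Y K → Option ℕ) → Prop) (h : ∀ p, (∀ u v, (0, u, v) ∈ edges T A → p u = some 0 → u ≠ vC 7 →
    Φ (mv p u (vC 7) 0)) → Φ p) (p : Y K → Option ℕ) : Φ p := by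
  induction e : ((edges T A).toFinset.filter fun e => e.2.1 ≠ vC 7 ∧ p e.2.1 ≠ none).card
    using Nat.strong_induction_on generalizing p with
  | _ n ih =>
    refine h p fun u v h1 h2 h4 => ih _ (e ▸ Finset.card_lt_card ⟨fun b => ?_, fun h3 => ?_⟩) _ rfl
    · simp only [Finset.mem_filter, mv_apply]
      grind
    · simpa [mv_apply, h4] using h3 (show (0, u, v) ∈ _ by simp [*])

theorem mv_mv (h : p v = none) (w : Y K) : mv (mv p u v 0) v w 0 = mv p u w 0 := by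
  ext1
  simp only [mv_apply]
  grind

/-- pending action, the two tokens of value one, the token of type 1 -/
def St (o : Option (Act K)) (d e : Prop) (c : Y K) (p : Y K → Option ℕ) : Prop :=
  (∀ v i, p v = some i → v = vC 7 ∨ i = 1 ∧ v = c ∨
    i = 0 ∧ (v.1 = 0 ∨ v.1 = 2 ∨ v.1 = 1 ∧ o = some v.2 ∨ d ∧ v = vC 6 ∨ e ∧ v = vC 3)) ∧
  (∀ a, o = some a → p (1, a) = some 0 ∧ p (vR a.1 a.2.1) = none) ∧ (d → p (vC 6) = some 0) ∧
    (e → p (vC 3) = some 0) ∧ (c ≠ vC 7 → p c = some 1) ∧ (c.1 = 4 ∨ c.1 = 5 ∨ 7 ≤ c.1 ∧ c.1 ≤ 10)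

def LS (T : List K) (A : List (Act K)) (o : Option (Act K)) (d e : Prop) (c : Y K) : Prop :=
  ∀ p, St o d e c p → Lose (MoveF true (edges T A)) p
def WS (T : List K) (A : List (Act K)) (o : Option (Act K)) (d e : Prop) (c : Y K) : Prop :=
  ∀ p, St o d e c p → Win (MoveF true (edges T A)) p

variable {o : Option (Act K)} {a : Act K} {d e : Prop} {c c' : Y K}

theorem St.p0 (h : St (some a) d e c p) (hv : v.1 = 0 ∨ v.1 = 2 ∨ v = vC 7) : St none d e c (mv p (1, a) v 0) := by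
  obtain ⟨a1, a2, a3, a4, a5, a6⟩ := h
  refine ⟨?_, ?_, ?_, ?_, ?_, ?_⟩ <;> (try simp only [mv_apply]) <;> grind

theorem St.p1 (h : St (some a) d e c p) : St none d True c (mv p (1, a) (vC 3) 0) := by
  obtain ⟨a1, a2, a3, a4, a5, a6⟩ := h
  refine ⟨?_, ?_, ?_, ?_, ?_, ?_⟩ <;> (try simp only [mv_apply]) <;> grind

theorem St.sd (h : St o d e c p) : St o False e c (mv p (vC 6) (vC 7) 0) := by
  obtain ⟨a1, a2, a3, a4, a5, a6⟩ := h
  refine ⟨?_, ?_, ?_, ?_, ?_, ?_⟩ <;> (try simp only [mv_apply]) <;> grind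

theorem St.se (h : St o d e c p) : St o d False c (mv p (vC 3) (vC 7) 0) := by
  obtain ⟨a1, a2, a3, a4, a5, a6⟩ := h
  refine ⟨?_, ?_, ?_, ?_, ?_, ?_⟩ <;> (try simp only [mv_apply]) <;> grind

theorem St.sc (h : St o d e c p) (hc : c'.1 = 4 ∨ 7 ≤ c'.1 ∧ c'.1 ≤ 10) : St o d e c' (mv p c c' 1) := by
  obtain ⟨a1, a2, a3, a4, a5, a6⟩ := h
  refine ⟨?_, ?_, ?_, ?_, ?_, ?_⟩ <;> (try simp only [mv_apply]) <;> grind

theorem St.rm (h : St o d e c p) (hu : u.1 = 0 ∨ u.1 = 2) : St o d e c (mv p u (vC 7) 0) := by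
  obtain ⟨a1, a2, a3, a4, a5, a6⟩ := h
  refine ⟨?_, ?_, ?_, ?_, ?_, ?_⟩ <;> (try simp only [mv_apply]) <;> grind

theorem wP0 (ha : a ∈ A) (h : LS T A none d e c) : WS T A (some a) d e c := fun _ hp =>
  win_mv (v := vC 7) (out_ed ha (by simp [out])) (hp.2.1 a rfl).1 (h _ (hp.p0 (by simp)))

theorem wP1 (ha : a ∈ A) (h : LS T A none d True c) : WS T A (some a) d e c := fun _ hp =>
  win_mv (v := vC 3) (out_ed ha (by simp [out])) (hp.2.1 a rfl).1 (h _ hp.p1)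

theorem wD (h : LS T A o False e c) : WS T A o True e c := fun _ hp =>
  win_mv (fx_ed (y := 7) (by decide)) (hp.2.2.1 trivial) (h _ hp.sd)

theorem wE (h : LS T A o d False c) : WS T A o d True c := fun _ hp =>
  win_mv (fx_ed (y := 7) (by decide)) (hp.2.2.2.1 trivial) (h _ hp.se)

theorem wC {x y : ℕ} (h1 : (1, x, y) ∈ fx) (h : LS T A o d e (vC y)) : WS T A o d e (vC x) := fun _ hp =>
  have := mem_fx h1
  win_mv (fx_ed h1) (hp.2.2.2.2.1 (by simp; omega)) (h _ (hp.sc (by simp; omega)))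

theorem wC4 {y : ℕ} (ha : a ∈ chk T A) (hy : y = 7 ∨ y = 10) (h : LS T A o d e (vC y)) : WS T A o d e (4, a) :=
  fun _ hp => win_mv (ed_iff.2 (.inr (.inr ⟨a, ha, by grind⟩))) (hp.2.2.2.2.1 (by simp)) (h _ (hp.sc (by grind)))

theorem lose (Φ : (Y K → Option ℕ) → Prop)
    (h0 : ∀ p u, Φ p → St o d e c p → p u = some 0 → u.1 = 0 ∨ u.1 = 2 → Φ (mv p u (vC 7) 0))
    (h1 : ∀ p b, Φ p → c = (4, b) → ∀ w ∈ wit A b, p w = none)
    (h2 : ∀ p a, Φ p → St o d e c p → o = some a → a ∈ A → ∀ v ∈ out a,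
      Win (MoveF true (edges T A)) (mv p (1, a) v 0))
    (h3 : d → WS T A o False e c) (h4 : e → WS T A o d False c)
    (h5 : ∀ x y, (1, x, y) ∈ fx → c = vC x → WS T A o d e (vC y))
    (h6 : ∀ b ∈ chk T A, (c = vC 5 → WS T A o d e (4, b)) ∧
      (c = (4, b) → WS T A o d e (vC 7) ∧ WS T A o d e (vC 10)))
    (p : Y K → Option ℕ) : Φ p → St o d e c p → Lose (MoveF true (edges T A)) p := by
  induction p using ind (T := T) (A := A) with | _ p ih
  intro a1 a2 q hq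
  obtain ⟨i, u, v, b1, b2, rfl⟩ := move_iff.1 hq
  have b3 := a2.1 u i b2
  have b4 := a2.2.2.2.2.2
  have rev : i = 0 → u.1 = 0 ∨ u.1 = 2 → p v = none → (0, v, vC 7) ∈ edges T A →
      Win (MoveF true (edges T A)) (mv p u v i) := by
    rintro rfl c1 c2 c3
    exact win_mv c3 (by simp [mv_apply]) (by
      rw [mv_mv c2]; exact ih u v b1 b2 (by grind) (h0 p u a1 a2 b2 c1) (a2.rm c1))
  rcases ed_iff.1 b1 with ⟨x, y, h, rfl, rfl⟩ | ⟨b, hb, rfl, ⟨rfl, rfl⟩ | ⟨rfl, h⟩⟩ |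
    ⟨b, hb, ⟨rfl, rfl, rfl⟩ | ⟨rfl, ⟨rfl, h⟩ | ⟨rfl, h⟩⟩ | ⟨rfl, h, rfl⟩⟩
  · rcases mem_fx h with ⟨rfl, ⟨rfl, rfl⟩ | ⟨rfl, rfl⟩ | ⟨rfl, rfl⟩ | ⟨rfl, rfl⟩⟩ | ⟨rfl, h'⟩
    iterate 2 simp at b3
    · exact h3 (by simpa using b3) _ a2.sd
    · exact h4 (by simpa using b3) _ a2.se
    · obtain rfl : vC x = c := by grind
      exact h5 x y h rfl _ (a2.sc (by simp; omega))
  · refine rev rfl (by simp) (Option.eq_none_iff_forall_ne_some.2 fun j hj => ?_)
      (out_ed hb (by simp [out]))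
    have := a2.1 _ _ hj
    have := a2.2.1 b
    grind
  · exact h2 p b a1 a2 (by simpa using b3) hb v h
  · obtain rfl : vC 5 = c := by grind
    exact (h6 b hb).1 rfl _ (a2.sc (by simp))
  · obtain rfl : (4, b) = c := by grind
    rcases h with rfl | rfl
    exacts [((h6 b hb).2 rfl).1 _ (a2.sc (by simp)), ((h6 b hb).2 rfl).2 _ (a2.sc (by simp))]
  · simp at b3
  · refine rev rfl (wit_k h) (Option.eq_none_iff_forall_ne_some.2 fun j hj => ?_)
      (ed_iff.2 (.inr (.inr ⟨b, hb, by simp⟩)))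
    have := a2.1 _ _ hj
    have := fun e => h1 p b a1 e u h
    grind

theorem nim {n : ℕ} (hn : 7 ≤ n)
    (h2 : ∀ a, o = some a → WS T A none d e (vC n) ∧ WS T A none d True (vC n))
    (h3 : d → WS T A o False e (vC n)) (h4 : e → WS T A o d False (vC n))
    (h5 : ∀ y, 7 ≤ y → y < n → WS T A o d e (vC y)) : LS T A o d e (vC n) := fun p =>
  lose (fun _ => True) (by simp) (by grind) (by
    rintro p a - h rfl - v hv
    rcases mem_out.1 hv with rfl | hv
    exacts [(h2 a rfl).2 _ h.p1, (h2 a rfl).1 _ (h.p0 (by grind))]) h3 h4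
    (fun x y h e => have := mem_fx h; h5 y (by grind) (by grind)) (by grind) p trivial

theorem l0 : LS T A none False False (vC 7) := nim le_rfl (by simp) (by simp) (by simp) (by omega)
theorem l1 : LS T A none True True (vC 7) := nim le_rfl (by simp) (fun _ => wE l0) (fun _ => wD l0) (by omega)
theorem l2 : LS T A none True False (vC 8) := nim (by simp) (by simp) (fun _ => wC (by decide) l0) (by simp)
  fun y _ _ => (show 7 = y by omega) ▸ wD l0
theorem l3 : LS T A none False True (vC 8) := nim (by simp) (by simp) (by simp) (fun _ => wC (by decide) l0)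
  fun y _ _ => (show 7 = y by omega) ▸ wE l0
theorem l4 (ha : a ∈ A) : LS T A (some a) False False (vC 9) :=
  nim (by simp) (fun _ _ => ⟨wC (by decide) l0, wC (by decide) l3⟩) (by simp) (by simp) fun y _ _ => by
    interval_cases y
    exacts [wP0 ha l0, wP1 ha l3]
theorem l5 (ha : a ∈ A) : LS T A (some a) True False (vC 10) :=
  nim (by simp) (fun _ _ => ⟨wC (by decide) l2, wC (by decide) l1⟩) (fun _ => wC (by decide) (l4 ha)) (by simp)
    fun y _ _ => by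
      interval_cases y
      exacts [wP1 ha l1, wP0 ha l2, wD (l4 ha)]

theorem win_chk (ha : a ∈ chk T A) (h1 : St none True False (vC 5) p) (h2 : ∀ w ∈ wit A a, p w = none) :
    Win (MoveF true (edges T A)) p := by
  have := @wit_k K _ _ A
  refine win_mv (v := (4, a)) (ed_iff.2 (.inr (.inr ⟨a, ha, by simp⟩))) (h1.2.2.2.2.1 (by simp))
    (lose (fun p => ∀ w ∈ wit A a, p w = none) ?_ (by grind) (by simp) (fun _ => wC4 ha (.inl rfl) l0) (by simp)
      (fun x y h => by have := mem_fx h; grind) (fun b _ => ⟨by simp, fun _ => ⟨wD l0, wC (by decide) l2⟩⟩) _ ?_ (h1.sc (by simp)))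
  all_goals simp only [mv_apply]; grind

def Rep (T : List K) (σ : K → Option Q8) (p : Y K → Option ℕ) : Prop :=
  St none True False (vC 5) p ∧ (∀ v, v.1 = 0 ∨ v.1 = 2 → p v ≠ none → ∃ k ∈ T, ∃ q, v = vR k q) ∧
    ∀ k q, p (vR k q) = if σ k = some q then some 0 else none

theorem st_init (h : St none d e c p) (h1 : ∀ b, p (1, b) = none) :
    St (some a) d e c (mv p (vR a.1 a.2.1) (1, a) 0) := by
  obtain ⟨a1, a2, a3, a4, a5, a6⟩ := h
  refine ⟨?_, ?_, ?_, ?_, ?_, ?_⟩ <;> (try simp only [mv_apply]) <;> grind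

theorem St.one (h : St none d e c p) (b : Act K) : p (1, b) = none :=
  Option.eq_none_iff_forall_ne_some.2 fun j hj => by
    have := h.1 _ _ hj
    have := h.2.2.2.2.2
    grind

theorem rep_step {σ : K → Option Q8} (ha : a.1 ∈ T) (h : Rep T σ p) (h1 : σ a.1 = some a.2.1) (t : Q8) :
    Rep T (update σ a.1 (some t)) (mv (mv p (vR a.1 a.2.1) (1, a) 0) (1, a) (vR a.1 t) 0) := by
  refine ⟨(st_init h.1 h.1.one).p0 (by simp), fun v => ?_, fun k q => ?_⟩
  · have := h.2.1 v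
    simp only [mv_apply]; grind
  · have := h.2.2 k q
    simp only [mv_apply, update_apply]; grind

theorem win_of (hA : ∀ a ∈ A, a.1 ∈ T) {σ : K → Option Q8} (h : AW A σ) :
    ∀ p, Rep T σ p → Win (MoveF true (edges T A)) p := by
  induction h with
  | @act σ a ha a1 a2 _ ih =>
    intro p h
    have wk := @wit_k K _ _ A
    refine win_mv (v := (1, a)) (ed_iff.2 (.inr (.inl ⟨a, ha, by simp⟩))) (by simp [h.2.2, a1])
      (lose (fun r => (∀ w ∈ wit A a, r w = none) ∧ r (2, a) = none ∧ (r = mv p (vR a.1 a.2.1) (1, a) 0 ∨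
        ∃ y ∈ T, y ≠ a.1 ∧ ∀ q, r (vR y q) = none)) ?_ (by simp) ?_ (fun _ => wC (by decide) (l4 ha)) (by simp) ?_
        (fun b hb => ⟨fun _ => wC4 hb (.inr rfl) (l5 ha), by simp⟩) _ ⟨fun w hw => ?_, ?_, .inl rfl⟩
        (st_init h.1 h.1.one))
    · rintro r u ⟨b1, b2, b3⟩ - b4 b5
      refine ⟨by simp only [mv_apply]; grind, by simp [mv_apply, b2], .inr ?_⟩
      rcases b3 with rfl | ⟨y, c1, c2, c3⟩
      · obtain ⟨y, c1, q, rfl⟩ := h.2.1 u b5 (by simp only [mv_apply] at b4; grind)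
        have := b1 _ (mem_wit.2 (.inl ⟨q, rfl⟩))
        have c2 : σ y = some q := by
          have := h.2.2 y q
          simp only [mv_apply] at b4; grind
        exact ⟨y, c1, by grind, fun q' => by simp +contextual [mv_apply, h.2.2, c2, eq_comm (b := q')]⟩
      · exact ⟨y, c1, c2, by simp only [mv_apply]; grind⟩
    · rintro r _ ⟨b1, b2, b3⟩ b4 ⟨⟩ - v hv
      have b5 := fun w => (mem_wit (A := A) (a := a) (w := w)).2
      rcases mem_out.1 hv with rfl | rfl | rfl | ⟨t, ht, rfl⟩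
      · exact wC (by decide) l1 _ b4.p1
      iterate 2
        refine win_chk (a := a) (List.mem_append_left _ ha) (b4.p0 (by simp)) fun w hw => ?_
        have := mem_wit.1 hw
        simp only [mv_apply]; grind
      rcases b3 with rfl | ⟨y, c1, c2, c3⟩
      · exact ih t ht _ (rep_step (hA a ha) h a1 t)
      · refine win_chk (a := (y, q0, [], [])) (List.mem_append_right _ (List.mem_map_of_mem c1)) (b4.p0 (by simp))
          fun w hw => ?_
        have := mem_wit.1 hw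
        simp only [mv_apply]; grind
    · intro x y h1 h2
      obtain rfl | rfl : y = 7 ∨ y = 9 := by have := mem_fx h1; grind
      exacts [wP1 ha l1, wD (l4 ha)]
    · have := h.2.1
      rcases mem_wit.1 hw with ⟨q, rfl⟩ | ⟨x, hx, rfl⟩ | ⟨b, -, -, rfl⟩
      · simp +contextual [mv_apply, h.2.2, a1, eq_comm (b := q)]
      · have := a2 x hx
        simp only [mv_apply, h.2.2]; grind
      · simp only [mv_apply]; grind
    · have := h.2.1
      simp only [mv_apply]; grind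

def Inv (T : List K) (A : List (Act K)) (p : Y K → Option ℕ) : Prop :=
  (p (vC 11) = some 0 ∨ p (vC 12) = some 0) ∨
  (∃ b ∈ chk T A, p (4, b) = some 0 ∧ St none True False (vC 7) (mv p (4, b) (vC 7) 0)) ∨
  St none True False (vC 5) p ∧
    ((∃ σ, ¬AW A σ ∧ (∀ k ∈ T, σ k ≠ none) ∧ Rep T σ p) ∨ (∀ a ∈ chk T A, ∃ w ∈ wit A a, p w = some 0) ∧
      (∃ a ∈ A, p (2, a) = some 0) ∧ ∀ a, p (2, a) ≠ none → p (vR a.1 a.2.1) = none)

abbrev Ok (T : List K) (A : List (Act K)) (q : Y K → Option ℕ) : Prop :=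
  ∃ r, MoveF true (edges T A) q r ∧ (Inv T A r ∨ Lose (MoveF true (edges T A)) r)

theorem ok_win (h : Win (MoveF true (edges T A)) p) : Ok T A p := let ⟨r, h1, h2⟩ := h; ⟨r, h1, .inr h2⟩

theorem ok_loop (h : p (vC 11) = some 0 ∨ p (vC 12) = some 0 ∨ ∃ b ∈ chk T A, p (4, b) = some 0) : Ok T A p := by
  rcases h with h | h | ⟨b, hb, h⟩
  · exact ⟨_, move_iff.2 ⟨_, _, _, fx_ed (y := 12) (by decide), h, rfl⟩, .inl (.inl (by simp [mv_apply]))⟩
  · exact ⟨_, move_iff.2 ⟨_, _, _, fx_ed (y := 11) (by decide), h, rfl⟩, .inl (.inl (by simp [mv_apply]))⟩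
  · exact ⟨_, move_iff.2 ⟨_, _, vC 11, ed_iff.2 (.inr (.inr ⟨b, hb, by simp⟩)), h, rfl⟩,
      .inl (.inl (by simp [mv_apply]))⟩

theorem inv_sink {b : Act K} (hb : b ∈ A) (a1 : St none True False (vC 5) p)
    (a4 : ∀ a, p (2, a) ≠ none → p (vR a.1 a.2.1) = none)
    (hw : ∃ w ∈ wit A b, w ≠ vR b.1 b.2.1 ∧ p w = some 0) : Ok T A (mv p (vR b.1 b.2.1) (1, b) 0) := by
  have h3 : mv (mv p (vR b.1 b.2.1) (1, b) 0) (1, b) (2, b) 0 (2, b) = some 0 := by simp [mv_apply]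
  refine ⟨_, move_iff.2 ⟨_, _, (2, b), out_ed hb (by simp [out]), by simp [mv_apply], rfl⟩, .inl (.inr (.inr
    ⟨(st_init a1 a1.one).p0 (by simp), .inr ⟨fun c _ => ?_, ⟨b, hb, h3⟩, by simp only [mv_apply]; grind⟩⟩))⟩
  by_cases e : b = c
  · obtain ⟨w, b1, b2, b3⟩ := hw
    have := wit_k b1
    exact ⟨w, e ▸ b1, by simp only [mv_apply]; grind⟩
  · exact ⟨_, mem_wit.2 (.inr (.inr ⟨b, hb, e, rfl⟩)), h3⟩

theorem not_win_of (hA : ∀ a ∈ A, a.1 ∈ T) {σ : K → Option Q8} (h : ¬AW A σ) (h1 : ∀ k ∈ T, σ k ≠ none)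
    (h2 : Rep T σ p) : ¬Win (MoveF true (edges T A)) p := by
  refine not_win (J := Inv T A) ?_ (.inr (.inr ⟨h2.1, .inl ⟨σ, h, h1, h2⟩⟩))
  intro p hp q hq
  obtain ⟨i, u, v, c1, c2, rfl⟩ := move_iff.1 hq
  have wk := @wit_k K _ _ A
  have c3 := ed_iff.1 c1
  rcases hp with hp | ⟨b, hb, b1, b2⟩ | ⟨a1, a4⟩
  · refine ok_loop ?_
    simp only [mv_apply]
    rcases c3 with ⟨x, y, h, rfl, rfl⟩ | ⟨b, hb, rfl, h⟩ | ⟨b, hb, h⟩
    · have := mem_fx h
      grind
    · grind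
    · grind
  · by_cases e : u = (4, b)
    · obtain ⟨rfl, rfl | rfl⟩ : i = 0 ∧ (v = vC 7 ∨ v = vC 11) := by
        rcases c3 with ⟨x, y, h, rfl, rfl⟩ | h
        · have := mem_fx h
          grind
        · grind
      · exact ok_win (wD l0 _ (e ▸ b2))
      · exact ok_loop (by simp [mv_apply])
    · refine ok_loop (.inr (.inr ⟨b, hb, ?_⟩))
      have := b2.1 u i
      simp only [mv_apply] at *
      rcases c3 with ⟨x, y, h, rfl, rfl⟩ | h
      · have := mem_fx h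
        grind
      · grind
  have b3 := a1.1 u i c2
  rcases c3 with ⟨x, y, h, rfl, rfl⟩ | ⟨b, hb, rfl, ⟨rfl, rfl⟩ | ⟨rfl, h⟩⟩ |
    ⟨b, hb, ⟨rfl, rfl, rfl⟩ | ⟨rfl, -⟩ | ⟨rfl, h, rfl⟩⟩
  · have := mem_fx h
    obtain ⟨rfl, rfl, rfl⟩ | ⟨rfl, rfl, rfl | rfl⟩ : i = 0 ∧ x = 6 ∧ y = 7 ∨ i = 1 ∧ x = 5 ∧ (y = 7 ∨ y = 9) := by
      grind
    exacts [ok_win (wC (by decide) l0 _ a1.sd), ok_win (wD l0 _ (a1.sc (by simp))),
      ok_win (wC (by decide) l2 _ (a1.sc (by simp)))]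
  · rcases a4 with ⟨σ, b1, b2, b3⟩ | ⟨-, ⟨a, b1, b2⟩, b3⟩
    · have b4 : σ b.1 = some b.2.1 := by simpa [b3.2.2] using c2
      by_cases g : ∀ w ∈ b.2.2.1, w.1 ≠ b.1 → σ w.1 ≠ some w.2
      · obtain ⟨t, ht, b5⟩ : ∃ t ∈ b.2.2.2, ¬AW A (update σ b.1 (some t)) := by
          by_contra hc
          exact b1 (.act b hb b4 g (by grind))
        have b6 := rep_step (hA b hb) b3 b4 t
        exact ⟨_, move_iff.2 ⟨_, _, _, out_ed hb (mem_out.2 (.inr (.inr (.inr ⟨t, ht, rfl⟩)))), by simp [mv_apply],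
          rfl⟩, .inl (.inr (.inr ⟨b6.1, .inl ⟨_, b5, by simp only [update_apply]; grind, b6⟩⟩))⟩
      · push Not at g
        obtain ⟨x, d1, d2, d3⟩ := g
        exact inv_sink hb a1 (fun a h => by simpa using b3.2.1 _ (.inr rfl) h)
          ⟨_, mem_wit.2 (.inr (.inl ⟨x, d1, rfl⟩)), by simp [d2], by simp [b3.2.2, d3]⟩
    · exact inv_sink hb a1 b3 ⟨_, mem_wit.2 (.inr (.inr ⟨a, b1, by grind, rfl⟩)), by simp, b2⟩
  · simp at b3
  · obtain ⟨w, hw, b1⟩ : ∃ w ∈ wit A b, p w = some 0 := by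
      rcases a4 with ⟨σ, -, b2, b3⟩ | h
      · obtain ⟨t, ht⟩ := Option.ne_none_iff_exists'.1 (b2 b.1 (by
          rcases List.mem_append.1 hb with h | h
          · exact hA b h
          · obtain ⟨k, hk, rfl⟩ := List.mem_map.1 h
            exact hk))
        exact ⟨_, mem_wit.2 (.inl ⟨t, rfl⟩), by simp [b3.2.2, ht]⟩
      · exact h.1 b hb
    have := wit_k hw
    refine ⟨_, move_iff.2 ⟨0, w, (4, b), ed_iff.2 (.inr (.inr ⟨b, hb, by simp [hw]⟩)),
      by simp only [mv_apply]; grind, rfl⟩, .inl (.inr (.inl ⟨b, hb, by simp [mv_apply], ?_⟩))⟩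
    obtain ⟨a1, a2, a3, -⟩ := a1
    refine ⟨?_, ?_, ?_, ?_, ?_, ?_⟩ <;> (try simp only [mv_apply]) <;> grind
  · simp at b3
  · exact ok_loop (.inr (.inr ⟨b, hb, by simp [mv_apply]⟩))

def init (T : List K) : List (Y K × ℕ) := (vC 5, 1) :: (vC 6, 0) :: T.map fun k => (vR k q0, 0)

theorem rep (T : List K) : Rep T (fun k => if k ∈ T then some q0 else none) (place (init T)) := by
  have : ∀ v, place (T.map fun k => (vR k q0, 0)) v = if ∃ k ∈ T, v = vR k q0 then some 0 else none := fun v => by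
    induction T with
    | nil => simp [place]
    | cons k T ih => by_cases h : v = vR k q0 <;> simp [place_cons, ih, h]
  simp only [Rep, St, init, place_cons, this]
  refine ⟨⟨fun v i h => ?_, by simp⟩, by grind, fun k q => by simp [eq_comm (a := q0), and_comm]⟩
  split_ifs at h with h1 h2 h3
  iterate 2 simp [*, ← Option.some.inj h]
  obtain ⟨k, -, rfl⟩ := h3
  simp [← Option.some.inj h]

variable [Enc K]

set_option synthInstance.maxSize 4000

theorem red_pt : PT fun a : List K × List (Act K) => tokName (edges a.1 a.2, init a.1) := by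
  have h1 : PT (init (K := K)) := by unfold init; fun_prop
  have : PT fun a : List K × List (Act K) => chk a.1 a.2 := by unfold chk; fun_prop
  have : PT (out (K := K)) := by unfold out; fun_prop
  have : PT fun a : List (Act K) × Act K => wit a.1 a.2 := by unfold wit; fun_prop
  have h2 : PT fun a : List K × List (Act K) => edges a.1 a.2 := by unfold edges; fun_prop
  exact tokName_pt.comp (h2.pair (h1.comp PT.id.fst))

end Pool.Agent.H.MP_901ac1_lc
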